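import Pool.Agent.H12.KG.Targets2

/-!
# K1D: Milnor K-theory in degree one, and small symbols (helper45)
-/

set_option autoImplicit false

open AlgebraicGeometry CategoryTheory Pool.Agent.H12.KP Pool.Agent.H12.KG Pool.Agent.H62.MK
  Pool.Agent.H19.KN

namespace Pool.Agent.H45.KG

universe u

section

variable {F : Type u} [Field F]

theorem upd (a : Fin 1 → Fˣ) (i : Fin 1) (x : Fˣ) : Function.update a i x = fun _ => x := by
  funext j
  have h : j = i := Subsingleton.elim _ _
  subst h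
  simp

theorem s_mul (x y : Fˣ) :
    (sym (fun _ => x * y) : MilnorK F 1) = sym (fun _ => x) + sym (fun _ => y) := by
  have h := sym_update_mul (n := 1) (fun _ => (1 : Fˣ)) 0 x y
  rwa [upd, upd, upd] at h

theorem s_one : (sym (fun _ => (1 : Fˣ)) : MilnorK F 1) = 0 := by
  have h := s_mul (1 : Fˣ) 1
  rw [mul_one] at h
  exact left_eq_add.1 h

theorem s_pow (x : Fˣ) (k : ℕ) :
    (sym (fun _ => x ^ k) : MilnorK F 1) = k • sym (fun _ => x) := by
  induction k with
  | zero => rw [pow_zero, s_one, zero_smul]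
  | succ k ih => rw [pow_succ, s_mul, ih, succ_nsmul]

theorem s_inv (x : Fˣ) : (sym (fun _ => x⁻¹) : MilnorK F 1) = -sym (fun _ => x) := by
  have h := s_mul x x⁻¹
  rw [mul_inv_cancel, s_one] at h
  exact (neg_eq_of_add_eq_zero_right h.symm).symm

theorem s_all (x : MilnorK F 1) : ∃ v : Fˣ, x = sym (fun _ => v) := by
  refine MilnorK.induction (p := fun x => ∃ v : Fˣ, x = sym (fun _ => v)) x ⟨1, s_one.symm⟩
    ?_ ?_ ?_
  · intro a
    exact ⟨a 0, congrArg sym (funext fun j => congrArg a (Subsingleton.elim _ _))⟩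
  · rintro x ⟨v, rfl⟩
    exact ⟨v⁻¹, (s_inv v).symm⟩
  · rintro x y ⟨v, rfl⟩ ⟨w, rfl⟩
    exact ⟨v * w, (s_mul v w).symm⟩

/-- the unit of an element of `K_1` -/
noncomputable def valh : MilnorK F 1 →+ Additive Fˣ :=
  lift (fun a => Additive.ofMul (a 0)) (by
    intro a i x y
    rw [upd, upd, upd]
    rfl) (by
    intro a i hi
    omega)

theorem s_inj (x y : Fˣ) (h : (sym (fun _ => x) : MilnorK F 1) = sym (fun _ => y)) : x = y := by
  have h1 := congrArg valh h
  unfold valh at h1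
  rw [lift_sym, lift_sym] at h1
  exact Additive.ofMul.injective h1

theorem small_one (π : F) (n : ℕ) (S : Subring F) : (1 : Fˣ) ∈ Small π n S :=
  ⟨0, S.zero_mem, by simp⟩

theorem small_mul {π : F} {n : ℕ} {S : Subring F} (hπ : π ∈ S) {s t : Fˣ}
    (hs : s ∈ Small π n S) (ht : t ∈ Small π n S) : s * t ∈ Small π n S := by
  obtain ⟨a, ha, hs⟩ := hs
  obtain ⟨b, hb, ht⟩ := ht
  refine ⟨a + b + π ^ n * (a * b), S.add_mem (S.add_mem ha hb)
    (S.mul_mem (S.pow_mem hπ n) (S.mul_mem ha hb)), ?_⟩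
  rw [Units.val_mul, hs, ht]
  ring

theorem small_inv {π : F} {n : ℕ} {S : Subring F} (hπ : π ∈ S) (hn : 1 ≤ n)
    (hj : ∀ a ∈ S, ∃ b ∈ S, (1 + π * a) * b = 1) {s : Fˣ} (hs : s ∈ Small π n S) :
    s⁻¹ ∈ Small π n S := by
  obtain ⟨a, ha, hs⟩ := hs
  obtain ⟨b, hb, hab⟩ := hj (π ^ (n - 1) * a) (S.mul_mem (S.pow_mem hπ _) ha)
  have e : π * (π ^ (n - 1) * a) = π ^ n * a := by
    rw [← mul_assoc, ← pow_succ', Nat.sub_add_cancel hn]
  have h1 : (1 + π ^ n * a) * b = 1 := by
    rw [← e]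
    exact hab
  have h2 : ((s⁻¹ : Fˣ) : F) = b := by
    rw [Units.val_inv_eq_inv_val]
    rw [← hs] at h1
    exact inv_eq_of_mul_eq_one_right h1
  refine ⟨-(a * b), S.neg_mem (S.mul_mem ha hb), ?_⟩
  rw [h2]
  linear_combination h1

end

theorem pf_K1D : S_K1D.{u} := by
  intro F _
  refine ⟨s_all, s_mul, s_pow, s_inj, fun q n π S hπ hn hj v => ⟨fun hv => ?_, ?_⟩⟩
  · have key : ∀ x ∈ USub q π n S 1, ∃ t s : Fˣ, s ∈ Small π n S ∧
        x = (sym (fun _ => t ^ q * s) : MilnorK F 1) := by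
      intro x hx
      unfold USub at hx
      induction hx using AddSubgroup.closure_induction with
      | mem x hx =>
        rcases hx with ⟨y, rfl⟩ | ⟨s, hs, y, rfl⟩
        · obtain ⟨t, rfl⟩ := s_all y
          exact ⟨t, 1, small_one π n S, by rw [mul_one, s_pow]⟩
        · have h1 : ∃ s' ∈ Small π n S, cup s y = (sym (fun _ => s') : MilnorK F 1) := by
            refine MilnorK.induction
              (p := fun y => ∃ s' ∈ Small π n S, cup s y = (sym (fun _ => s') : MilnorK F 1)) y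
              ⟨1, small_one π n S, by rw [map_zero, s_one]⟩ ?_ ?_ ?_
            · intro a
              refine ⟨s, hs, ?_⟩
              rw [cup_sym]
              congr 1
              funext j
              have hj0 : j = 0 := Subsingleton.elim (α := Fin 1) _ _
              subst hj0
              rfl
            · rintro y ⟨s', hs', h⟩
              exact ⟨s'⁻¹, small_inv hπ hn hj hs', by rw [map_neg, h, s_inv]⟩
            · rintro y z ⟨s', hs', h⟩ ⟨s'', hs'', h'⟩
              exact ⟨s' * s'', small_mul hπ hs' hs'', by rw [map_add, h, h', s_mul]⟩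
          obtain ⟨s', hs', h2⟩ := h1
          exact ⟨1, s', hs', by rw [h2, one_pow, one_mul]⟩
      | zero => exact ⟨1, 1, small_one π n S, by rw [one_pow, one_mul, s_one]⟩
      | add x y _ _ hx hy =>
        obtain ⟨t, s, hs, rfl⟩ := hx
        obtain ⟨t', s', hs', rfl⟩ := hy
        refine ⟨t * t', s * s', small_mul hπ hs hs', ?_⟩
        rw [← s_mul, mul_pow]
        congr 1
        funext _
        exact mul_mul_mul_comm _ _ _ _
      | neg x _ hx =>
        obtain ⟨t, s, hs, rfl⟩ := hx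
        refine ⟨t⁻¹, s⁻¹, small_inv hπ hn hj hs, ?_⟩
        rw [← s_inv, mul_inv, inv_pow]
    obtain ⟨t, s, hs, h⟩ := key _ hv
    exact ⟨t, s, hs, s_inj _ _ h⟩
  · rintro ⟨t, s, hs, rfl⟩
    rw [s_mul, s_pow]
    refine AddSubgroup.add_mem _ (AddSubgroup.subset_closure (Or.inl ⟨_, rfl⟩))
      (AddSubgroup.subset_closure (Or.inr ⟨s, hs, one0, ?_⟩))
    unfold one0
    rw [cup_sym]
    congr 1
    funext j
    have hj0 : j = 0 := Subsingleton.elim (α := Fin 1) _ _
    subst hj0
    rfl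

end Pool.Agent.H45.KG
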